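import Pool.Agent.Lib.MP_6bc78b_nt.MS.P1.Iface

set_option autoImplicit false

open Complex Filter Topology MeasureTheory ArithmeticFunction

namespace Pool.Agent.Lib.MP_6bc78b_nt.MS.P1.H74

theorem ww_integrable (T c : ℝ) (hD : 0 < DD T)
    (h1 : ∀ t : ℝ, ‖WW T (c + t * I)‖ = Real.exp (((c - 1 / 2) ^ 2 - (t - T) ^ 2) / DD T ^ 2)) :
    Integrable (fun t : ℝ => WW T (c + t * I)) := by
  have hcont : Continuous (fun t : ℝ => WW T (c + t * I)) := by
    unfold WW
    fun_prop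
  have hg : Integrable (fun t : ℝ => Real.exp (-(1 / DD T ^ 2) * t ^ 2)) :=
    integrable_exp_neg_mul_sq (by positivity)
  have hg2 : Integrable (fun t : ℝ => Real.exp (-(1 / DD T ^ 2) * (t - T) ^ 2)) :=
    hg.comp_sub_right T
  have hg3 := hg2.const_mul (Real.exp ((c - 1 / 2) ^ 2 / DD T ^ 2))
  refine hg3.mono' hcont.aestronglyMeasurable (Eventually.of_forall fun t => ?_)
  rw [h1 t, ← Real.exp_add]
  apply le_of_eq
  congr 1
  ring

theorem edg0 (h1 : GaussStatement) (h2 : SwapStatement) (h3 : DDStatement) : Edge0Statement := by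
  intro c A hc1 hc2
  obtain ⟨-, hnorm, hgau⟩ := h1
  obtain ⟨-, hDlow, hDup, hexp⟩ := h3
  have hE := hexp 0 (A + 2) (by norm_num)
  have hD2 := hDlow (1 / 2) (by norm_num)
  filter_upwards [hE, hD2, hDup, eventually_ge_atTop (1000 : ℝ)] with T hET hDT hDu hT a ha1 hsum hle
  obtain ⟨hDT1, hDge, hcG0, hcGT⟩ := hDu
  have hTpos : 0 < T := by linarith
  have hDpos : 0 < DD T := by linarith
  have hDsq : T ≤ DD T ^ 2 := by
    have h4 : T ^ (1 - 1 / 2 : ℝ) * T ^ (1 - 1 / 2 : ℝ) = T := by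
      rw [← Real.rpow_add hTpos]; norm_num
    have h5 : 0 ≤ T ^ (1 - 1 / 2 : ℝ) := by positivity
    nlinarith
  have hint := ww_integrable T c hDpos (hnorm T c)
  obtain ⟨-, -, hswap⟩ := h2 c a (fun s => WW T s) hsum hint
  rw [hswap]
  have hl2 : (0.69 : ℝ) < Real.log 2 := by
    have := Real.log_two_gt_d9; linarith
  -- termwise bound
  have hterm : ∀ n : ℕ, ‖(if n = 0 then (0 : ℂ) else a n * VI c (fun s => WW T s * (n : ℂ) ^ (-s)))‖ ≤
      (T * T ^ (-(A + 2))) * (‖a n‖ * (n : ℝ) ^ (-c)) := by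
    intro n
    rcases Nat.eq_zero_or_pos n with rfl | hn
    · simp only [if_true, norm_zero]
      positivity
    rw [if_neg hn.ne']
    rcases Nat.lt_or_ge n 2 with hn2 | hn2
    · have : n = 1 := by omega
      subst this
      rw [ha1]
      simp
    have hn0 : (0 : ℝ) < n := by exact_mod_cast hn
    have hgn := hgau T c n hDpos hn0
    have hcast : (fun s : ℂ => WW T s * ((n : ℝ) : ℂ) ^ (-s)) = fun s : ℂ => WW T s * (n : ℂ) ^ (-s) := by
      funext s; simp
    rw [hcast] at hgn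
    rw [hgn, norm_mul, norm_mul]
    have hx : Real.log 2 ≤ Real.log n := Real.log_le_log (by norm_num) (by exact_mod_cast hn2)
    obtain ⟨x, hxd⟩ : ∃ x : ℝ, x = Real.log n := ⟨_, rfl⟩
    have hx2 : 0.69 < x := by rw [hxd]; linarith
    have hn1 : ‖(cG T : ℂ)‖ = cG T := by
      rw [Complex.norm_real, Real.norm_of_nonneg hcG0.le]
    have hn2' : ‖Complex.exp (-(1 / 2 + T * I) * Real.log n - (DD T) ^ 2 * (Real.log n) ^ 2 / 4)‖ =
        Real.exp (-(x / 2) - DD T ^ 2 * x ^ 2 / 4) := by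
      rw [Complex.norm_exp]
      congr 1
      rw [← hxd]
      have : (-(1 / 2 + T * I) * x - (DD T) ^ 2 * x ^ 2 / 4 : ℂ) =
          ((-(x / 2) - DD T ^ 2 * x ^ 2 / 4 : ℝ) : ℂ) + ((-(T * x) : ℝ) : ℂ) * I := by
        push_cast; ring
      rw [this, Complex.add_re, Complex.ofReal_re, Complex.mul_re, Complex.ofReal_re,
        Complex.ofReal_im, Complex.I_re, Complex.I_im]
      ring
    rw [hn1, hn2']
    have hnc : (n : ℝ) ^ (-c) = Real.exp (-(c * x)) := by
      rw [Real.rpow_def_of_pos hn0, ← hxd]; congr 1; ring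
    have hmain : Real.exp (-(x / 2) - DD T ^ 2 * x ^ 2 / 4) ≤ T ^ (-(A + 2)) * (n : ℝ) ^ (-c) := by
      have h6 : Real.exp (-(DD T ^ 2 / 64)) ≤ T ^ (-(A + 2)) := by
        have h7 : T ^ (-(2 * (0 : ℝ))) = 1 := by norm_num
        rw [h7, mul_one] at hET
        exact hET
      calc Real.exp (-(x / 2) - DD T ^ 2 * x ^ 2 / 4)
          ≤ Real.exp (-(DD T ^ 2 / 64) + -(c * x)) := by
            apply Real.exp_le_exp.2
            have h8 : 0.47 < x ^ 2 := by nlinarith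
            have h9 : 1000 ≤ DD T ^ 2 := by linarith
            have h10 : DD T ^ 2 * 0.47 ≤ DD T ^ 2 * x ^ 2 := by nlinarith
            have h11 : 690 * x ≤ DD T ^ 2 * x ^ 2 := by
              have : 690 ≤ DD T ^ 2 * x := by nlinarith
              nlinarith
            have h12 : c * x ≤ 3 / 2 * x := by nlinarith
            linarith
        _ = Real.exp (-(DD T ^ 2 / 64)) * Real.exp (-(c * x)) := Real.exp_add _ _
        _ ≤ T ^ (-(A + 2)) * (n : ℝ) ^ (-c) := by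
            rw [hnc]
            exact mul_le_mul_of_nonneg_right h6 (Real.exp_pos _).le
    calc ‖a n‖ * (cG T * Real.exp (-(x / 2) - DD T ^ 2 * x ^ 2 / 4))
        ≤ ‖a n‖ * (T * (T ^ (-(A + 2)) * (n : ℝ) ^ (-c))) := by
          apply mul_le_mul_of_nonneg_left _ (norm_nonneg _)
          exact mul_le_mul hcGT hmain (Real.exp_pos _).le hTpos.le
      _ = (T * T ^ (-(A + 2))) * (‖a n‖ * (n : ℝ) ^ (-c)) := by ring
  have hHas : HasSum (fun n : ℕ => (T * T ^ (-(A + 2))) * (‖a n‖ * (n : ℝ) ^ (-c)))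
      ((T * T ^ (-(A + 2))) * ∑' n : ℕ, ‖a n‖ * (n : ℝ) ^ (-c)) := hsum.hasSum.mul_left _
  refine (tsum_of_norm_bounded hHas hterm).trans ?_
  have hpos : 0 ≤ T * T ^ (-(A + 2)) := by positivity
  calc (T * T ^ (-(A + 2))) * ∑' n : ℕ, ‖a n‖ * (n : ℝ) ^ (-c)
      ≤ (T * T ^ (-(A + 2))) * T ^ A := mul_le_mul_of_nonneg_left hle hpos
    _ = T ^ (1 : ℝ) * T ^ (-(A + 2)) * T ^ A := by rw [Real.rpow_one]
    _ = T ^ (1 + -(A + 2) + A) := by rw [← Real.rpow_add hTpos, ← Real.rpow_add hTpos]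
    _ = T ^ (-1 : ℝ) := by congr 1; ring
    _ = 1 / T := by rw [Real.rpow_neg_one, one_div]

end Pool.Agent.Lib.MP_6bc78b_nt.MS.P1.H74
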